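import Pool.Agent.Y211.CL.Hard

/-!
# Topological properties of semialgebraic sets that are complete for `∃ℝ` and `∀ℝ`

Semialgebraic sets are given by arbitrary quantifier-free formulas (Boolean combinations of atoms
`p = 0`, `p > 0`, `p ≥ 0`, with integer polynomials written as sums of monomials); `Meets` is about
formulas with arbitrary polynomial expressions and existentially quantified auxiliary variables.

* It is `∃ℝ`-complete to decide `∃ x, G(x) ∧ ∀ ε > 0 ∃ y, F(y) ∧ |y_i - x_i| < ε for i ∈ E`, that is,
  whether the closure of the projection of one semialgebraic set meets the projection of another
  one. In particular it is `∃ℝ`-complete to decide whether the closure of one semialgebraic set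
  meets another one.
* Consequently the following are `∀ℝ`-complete: closedness, relative closedness (of one semialgebraic
  set in another one), compactness, and continuity (is the set the graph of a function which is
  continuous on its domain); the last one even for functions defined on all of `ℝⁿ`.
-/

namespace Pool.Agent.Results.MP_432bcd_lc.LimitsOfSemialgebraicSets

open Pool.Agent.NPC Pool.Agent.NPC.ER Pool.Agent.NPC.H612 Pool.Agent.Y211.CL

theorem result : ERComplete (lang Meets) ∧ ERComplete (lang ClosureMeets) ∧
    ARComplete (lang RelativelyClosed) ∧ ARComplete (lang Compactness) ∧
    ARComplete (lang ContinuousGraph) ∧ ARHardWithin FunctionGraph ContinuousGraph ∧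
    ARComplete (lang Closedness) :=
  ⟨meets_complete, closureMeets_complete, relativelyClosed_complete, compactness_complete,
    continuousGraph_complete, continuousGraph_hardWithin, closedness_arComplete⟩

end Pool.Agent.Results.MP_432bcd_lc.LimitsOfSemialgebraicSets
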